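import Pool.Agent.W23.KT.Defs
import Pool.Agent.H442R2.BX.Nc

set_option autoImplicit false

namespace Pool.Agent.W358.KT

open Finset
open Pool.Agent.H442R2
open Pool.Agent.H442R2.KF
open Pool.Agent.H442R2.BX
open Pool.Agent.W23.DC
open Pool.Agent.W23.SG
open Pool.Agent.W23.KT
open Pool.Agent.H442R2.BX.TaskNC

namespace TaskNCK

open Classical in
/-- the number of pairs at `n` times the weight -/
noncomputable def g (y : ℝ) (N X : ℕ) (S S' : Finset (ℤ × ℕ)) (n : ℤ) : ℝ :=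
  ∑ d ∈ roughs y X, ∑ d' ∈ (roughs y X).filter (fun d' => ¬ Nat.Coprime d d'),
    (if ((d : ℤ) ∣ Fp S n ∧ (d' : ℤ) ∣ Fp S' n) then Wt N n else 0)

theorem g_le (y : ℝ) (N X : ℕ) (S S' : Finset (ℤ × ℕ)) (n : ℤ) :
    g y N X S S' n ≤ Wt N n * ((rd y X (Fp S n)).card * (rd y X (Fp S' n)).card) := by
  classical
  unfold g
  calc _ ≤ ∑ d ∈ roughs y X, ∑ d' ∈ roughs y X,
        (if ((d : ℤ) ∣ Fp S n ∧ (d' : ℤ) ∣ Fp S' n) then Wt N n else 0) := by
        refine sum_le_sum fun d _ => ?_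
        refine sum_le_sum_of_subset_of_nonneg (filter_subset _ _) fun d' _ _ => ?_
        split_ifs
        · exact (Wt_pos N n).le
        · exact le_refl _
    _ = ∑ d ∈ roughs y X, ∑ d' ∈ roughs y X,
        (Wt N n * ((if (d : ℤ) ∣ Fp S n then 1 else 0) *
          (if (d' : ℤ) ∣ Fp S' n then 1 else 0))) := by
        refine sum_congr rfl fun d _ => sum_congr rfl fun d' _ => ?_
        by_cases h1 : (d : ℤ) ∣ Fp S n <;> by_cases h2 : (d' : ℤ) ∣ Fp S' n <;> simp [h1, h2]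
    _ = Wt N n * ((∑ d ∈ roughs y X, if (d : ℤ) ∣ Fp S n then (1:ℝ) else 0) *
        (∑ d' ∈ roughs y X, if (d' : ℤ) ∣ Fp S' n then (1:ℝ) else 0)) := by
        rw [sum_mul_sum, mul_sum]
        refine sum_congr rfl fun d _ => ?_
        rw [mul_sum]
    _ = _ := by
        rw [sum_boole, sum_boole]
        rfl

/-- the determinant of two different primitive forms is not zero -/
theorem det_ne_zero {M N : ℕ} {L L' : ℤ × ℕ} (hL : FoM M N L) (hL' : FoM M N L') (h : L ≠ L') :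
    L.1 * L'.2 - L'.1 * L.2 ≠ 0 := by
  intro h0
  apply h
  have e : L.1 * (L'.2 : ℤ) = L'.1 * (L.2 : ℤ) := by linarith
  have c1 : IsCoprime L.1 (L.2 : ℤ) := Int.isCoprime_iff_gcd_eq_one.2 hL.cop
  have c2 : IsCoprime L'.1 (L'.2 : ℤ) := Int.isCoprime_iff_gcd_eq_one.2 hL'.cop
  have d1 : (L.2 : ℤ) ∣ (L'.2 : ℤ) := by
    have : (L.2 : ℤ) ∣ L.1 * (L'.2 : ℤ) := by rw [e]; exact dvd_mul_left _ _
    exact c1.symm.dvd_of_dvd_mul_left this
  have d2 : (L'.2 : ℤ) ∣ (L.2 : ℤ) := by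
    have : (L'.2 : ℤ) ∣ L'.1 * (L.2 : ℤ) := by rw [← e]; exact dvd_mul_left _ _
    exact c2.symm.dvd_of_dvd_mul_left this
  have e2 : L.2 = L'.2 := Nat.dvd_antisymm (Int.natCast_dvd_natCast.1 d1)
    (Int.natCast_dvd_natCast.1 d2)
  have e1 : L.1 = L'.1 := by
    have hb : (L.2 : ℤ) ≠ 0 := by have := hL.b1; omega
    rw [← e2] at e
    exact mul_right_cancel₀ hb e
  exact Prod.ext e1 e2

theorem det_le {M N : ℕ} {L L' : ℤ × ℕ} (hN : 2 ≤ N) (hL : FoM M N L) (hL' : FoM M N L') :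
    (((L.1 * L'.2 - L'.1 * L.2 : ℤ).natAbs : ℕ) : ℝ) ≤ (N : ℝ) ^ (2 * M + 1) := by
  have h2 : (2:ℝ) ≤ N := by exact_mod_cast hN
  have h1 : (((L.1 * L'.2 - L'.1 * L.2 : ℤ).natAbs : ℕ) : ℝ) =
      |(L.1 : ℝ) * L'.2 - L'.1 * L.2| := by
    rw [Nat.cast_natAbs, Int.cast_abs]
    push_cast
    rfl
  rw [h1]
  have h3 : |(L.1 : ℝ) * L'.2 - L'.1 * L.2| ≤ |(L.1 : ℝ) * L'.2| + |(L'.1 : ℝ) * L.2| := abs_sub _ _
  have h4 : |(L.1 : ℝ) * L'.2| ≤ (N:ℝ) ^ M * (N:ℝ) ^ M := by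
    rw [abs_mul]
    refine mul_le_mul hL.a ?_ (abs_nonneg _) (by positivity)
    rw [abs_of_nonneg (by positivity)]
    exact hL'.b2
  have h5 : |(L'.1 : ℝ) * L.2| ≤ (N:ℝ) ^ M * (N:ℝ) ^ M := by
    rw [abs_mul]
    refine mul_le_mul hL'.a ?_ (abs_nonneg _) (by positivity)
    rw [abs_of_nonneg (by positivity)]
    exact hL.b2
  have h6 : (N:ℝ) ^ M * (N:ℝ) ^ M + (N:ℝ) ^ M * (N:ℝ) ^ M ≤ (N:ℝ) ^ (2 * M + 1) := by
    have : 0 ≤ (N:ℝ) ^ M * (N:ℝ) ^ M := by positivity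
    have e : (N:ℝ) ^ (2 * M + 1) = (N:ℝ) ^ M * (N:ℝ) ^ M * N := by ring
    rw [e]
    nlinarith
  linarith

/-- few large primes divide the determinant -/
theorem card_primes {E N : ℕ} {ε : ℝ} (hN : 2 ≤ N) (hε : 0 < ε) (D : ℕ) (hD : D ≠ 0)
    (hDN : (D : ℝ) ≤ (N : ℝ) ^ E) (Ls : Finset ℕ)
    (hLs : ∀ l ∈ Ls, l ∈ D.primeFactors ∧ (N : ℝ) ^ ε < l) : (Ls.card : ℝ) ≤ E / ε := by
  have hNpos : (0:ℝ) < N := by exact_mod_cast (by omega : 0 < N)
  have hN1 : (1:ℝ) < N := by exact_mod_cast (by omega : 1 < N)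
  have h1 : ∏ l ∈ Ls, l ∣ D := by
    refine (prod_dvd_prod_of_subset _ _ _ (fun l hl => (hLs l hl).1)).trans ?_
    exact Nat.prod_primeFactors_dvd D
  have h2 : ((∏ l ∈ Ls, l : ℕ) : ℝ) ≤ (N : ℝ) ^ E := by
    refine le_trans ?_ hDN
    exact_mod_cast Nat.le_of_dvd (Nat.pos_of_ne_zero hD) h1
  have h3 : ((N : ℝ) ^ ε) ^ Ls.card ≤ ((∏ l ∈ Ls, l : ℕ) : ℝ) := by
    push_cast
    rw [← prod_const]
    refine prod_le_prod (fun _ _ => (Real.rpow_pos_of_pos hNpos _).le) fun l hl => ?_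
    exact (hLs l hl).2.le
  have h4 : (N : ℝ) ^ (ε * Ls.card) ≤ (N : ℝ) ^ (E : ℝ) := by
    rw [Real.rpow_mul hNpos.le, Real.rpow_natCast, Real.rpow_natCast]
    exact h3.trans h2
  have h5 : ε * Ls.card ≤ E := (Real.rpow_le_rpow_left_iff hN1).1 h4
  rw [le_div_iff₀ hε]
  linarith

/-- the `n` with `l ∣ L(n)` lie in one class modulo `l` -/
theorem class_ex {M N : ℕ} {L : ℤ × ℕ} (hL : FoM M N L) (l : ℕ) (hl : l.Prime) :
    ∃ r : ℤ, ∀ n : ℤ, (l : ℤ) ∣ lf L n → (l : ℤ) ∣ n - r := by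
  by_cases h : ∃ n₁ : ℤ, (l : ℤ) ∣ lf L n₁
  · obtain ⟨n₁, h1⟩ := h
    refine ⟨n₁, fun n hn => ?_⟩
    have h2 : (l : ℤ) ∣ (L.2 : ℤ) * (n - n₁) := by
      have := dvd_sub hn h1
      unfold lf at this
      have e : L.1 + (L.2 : ℤ) * n - (L.1 + (L.2 : ℤ) * n₁) = (L.2 : ℤ) * (n - n₁) := by ring
      rwa [e] at this
    have hp : Prime (l : ℤ) := Nat.prime_iff_prime_int.1 hl
    rcases hp.dvd_or_dvd h2 with h3 | h3
    · exfalso
      have h4 : (l : ℤ) ∣ L.1 := by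
        unfold lf at h1
        have h5 : (l : ℤ) ∣ (L.2 : ℤ) * n₁ := h3.mul_right _
        have := dvd_sub h1 h5
        simpa using this
      have h6 : (l : ℤ) ∣ ((Int.gcd L.1 L.2 : ℕ) : ℤ) := Int.dvd_coe_gcd h4 h3
      rw [hL.cop] at h6
      have h7 : l ∣ 1 := by exact_mod_cast h6
      exact hl.one_lt.ne' (Nat.dvd_one.1 h7)
    · exact h3
  · exact ⟨0, fun n hn => absurd ⟨n, hn⟩ h⟩

theorem aux1 (w a b x c u : ℝ) (hw : 0 ≤ w) (_ : 0 ≤ a) (hb0 : 0 ≤ b) (hx : 0 ≤ x) (hc : 0 ≤ c)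
    (ha : a ≤ x) (hb : b ≤ c * u) (h : w * u ≤ 2) : w * (a * b) ≤ 2 * c * x := by
  have h1 : a * b ≤ x * (c * u) := mul_le_mul ha hb hb0 hx
  have h2 : w * (a * b) ≤ w * (x * (c * u)) := mul_le_mul_of_nonneg_left h1 hw
  have h3 : w * (x * (c * u)) = (c * x) * (w * u) := by ring
  have h4 : (c * x) * (w * u) ≤ (c * x) * 2 := mul_le_mul_of_nonneg_left h (mul_nonneg hc hx)
  linarith

theorem aux2 (w w2 a b c u t : ℝ) (hw : 0 ≤ w) (_ : 0 ≤ a) (hb0 : 0 ≤ b) (hc : 0 ≤ c) (hu : 0 ≤ u)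
    (ha : a ≤ c * u) (hb : b ≤ c * u) (h : u * u ≤ t) (h2 : w * t ≤ 2 * w2) :
    w * (a * b) ≤ 2 * c ^ 2 * w2 := by
  have h1 : a * b ≤ (c * u) * (c * u) := mul_le_mul ha hb hb0 (mul_nonneg hc hu)
  have h3 : w * (a * b) ≤ w * ((c * u) * (c * u)) := mul_le_mul_of_nonneg_left h1 hw
  have h4 : w * ((c * u) * (c * u)) = c ^ 2 * (w * (u * u)) := by ring
  have h5 : c ^ 2 * (w * (u * u)) ≤ c ^ 2 * (w * t) :=
    mul_le_mul_of_nonneg_left (mul_le_mul_of_nonneg_left h hw) (sq_nonneg c)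
  have h6 : c ^ 2 * (w * t) ≤ c ^ 2 * (2 * w2) := mul_le_mul_of_nonneg_left h2 (sq_nonneg c)
  linarith

end TaskNCK

open TaskNCK in
theorem NCK (hPBK : St_PBK) (hGS : BX.St_GS) : St_NCK := by
  classical
  intro k M ε hε
  obtain ⟨N₀, C0, hC0, hpb⟩ := hPBK k M ε hε
  have hK : 0 < ((2 * M + 1 : ℕ) : ℝ) / ε := by positivity
  refine ⟨4 * k * C0 + 24 * ((k : ℝ) ^ 2 * (((2 * M + 1 : ℕ) : ℝ) / ε)) * C0 ^ 2 +
    4 * N₀ * (N₀ + 1) + 1, by positivity, ?_⟩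
  intro N X hN hXN S S' hS hS' hSS
  have hN1 : 1 ≤ N := by omega
  have hNpos : (0:ℝ) < N := by exact_mod_cast (by omega : 0 < N)
  set y := (N : ℝ) ^ ε with hy
  have hy0 : 0 < y := Real.rpow_pos_of_pos hNpos _
  have hpow0 : 0 ≤ (N : ℝ) ^ (1 - ε) := Real.rpow_nonneg hNpos.le _
  -- X = 0
  rcases Nat.eq_zero_or_pos X with hX0 | hX0
  · have : roughs y X = ∅ := by
      rw [← card_eq_zero]
      have := card_roughs y X
      omega
    rw [this, sum_empty]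
    positivity
  have hX1 : (1:ℝ) ≤ X := by exact_mod_cast hX0
  by_cases hsmall : N < N₀
  · -- small N
    have h1 : ∀ d d' : ℕ, ∑' n : ℤ, (if ((d : ℤ) ∣ Fp S n ∧ (d' : ℤ) ∣ Fp S' n) then Wt N n else 0) ≤
        4 * ((N:ℝ) + 1) := by
      intro d d'
      have h2 := (hGS N hN1).2 1 0 le_rfl
      simp only [Nat.cast_one, div_one] at h2
      refine le_trans ?_ h2
      refine Summable.tsum_le_tsum (fun n => ?_) (summable_ite N hN1 _) (summable_ite N hN1 _)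
      rw [if_pos (one_dvd (n - 0))]
      split_ifs
      · exact le_refl _
      · exact (Wt_pos N n).le
    have hcard : ((roughs y X).card : ℝ) ≤ X := by exact_mod_cast card_roughs y X
    have hNN : (N:ℝ) ≤ N₀ := by exact_mod_cast hsmall.le
    have hXN' : (X:ℝ) ≤ N := by exact_mod_cast hXN
    calc _ ≤ ∑ d ∈ roughs y X,
          ∑ d' ∈ (roughs y X).filter (fun d' => ¬ Nat.Coprime d d'), 4 * ((N:ℝ) + 1) :=
          sum_le_sum fun d _ => sum_le_sum fun d' _ => h1 d d'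
      _ ≤ ∑ d ∈ roughs y X, (X:ℝ) * (4 * ((N:ℝ) + 1)) := by
          refine sum_le_sum fun d _ => ?_
          rw [sum_const, nsmul_eq_mul]
          refine mul_le_mul_of_nonneg_right ?_ (by positivity)
          refine le_trans ?_ hcard
          exact_mod_cast card_filter_le _ _
      _ = ((roughs y X).card : ℝ) * ((X:ℝ) * (4 * ((N:ℝ) + 1))) := by
          rw [sum_const, nsmul_eq_mul]
      _ ≤ (N₀:ℝ) * ((X:ℝ) * (4 * ((N₀:ℝ) + 1))) := by
          refine mul_le_mul (hcard.trans (hXN'.trans hNN)) ?_ (by positivity) (by positivity)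
          gcongr
      _ = 4 * N₀ * (N₀ + 1) * X := by ring
      _ ≤ (4 * k * C0 + 24 * ((k : ℝ) ^ 2 * (((2 * M + 1 : ℕ) : ℝ) / ε)) * C0 ^ 2 +
          4 * N₀ * (N₀ + 1) + 1) * ((N : ℝ) ^ (1 - ε) + X) := by
          have e1 : (4 * (N₀:ℝ) * (N₀ + 1)) ≤
              4 * k * C0 + 24 * ((k : ℝ) ^ 2 * (((2 * M + 1 : ℕ) : ℝ) / ε)) * C0 ^ 2 +
                4 * N₀ * (N₀ + 1) + 1 := by
            have : 0 ≤ 4 * k * C0 + 24 * ((k : ℝ) ^ 2 * (((2 * M + 1 : ℕ) : ℝ) / ε)) * C0 ^ 2 := by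
              positivity
            linarith
          refine mul_le_mul e1 (by linarith) (by positivity) (by positivity)
  push Not at hsmall
  -- exchange the sums
  have hex : ∑ d ∈ roughs y X,
      ∑ d' ∈ (roughs y X).filter (fun d' => ¬ Nat.Coprime d d'),
        ∑' n : ℤ, (if ((d : ℤ) ∣ Fp S n ∧ (d' : ℤ) ∣ Fp S' n) then Wt N n else 0) =
      ∑' n : ℤ, g y N X S S' n := by
    calc _ = ∑ d ∈ roughs y X, ∑' n : ℤ,
          ∑ d' ∈ (roughs y X).filter (fun d' => ¬ Nat.Coprime d d'),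
          (if ((d : ℤ) ∣ Fp S n ∧ (d' : ℤ) ∣ Fp S' n) then Wt N n else 0) := by
          refine sum_congr rfl fun d _ => ?_
          rw [Summable.tsum_finsetSum fun d' _ => summable_ite N hN1 _]
      _ = _ := by
          unfold g
          rw [Summable.tsum_finsetSum fun d _ => summable_sum fun d' _ => summable_ite N hN1 _]
  have hex' : ∑ d ∈ BX.roughs ((N : ℝ) ^ ε) X,
      ∑ d' ∈ (BX.roughs ((N : ℝ) ^ ε) X).filter (fun d' => ¬ Nat.Coprime d d'),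
        ∑' n : ℤ, (if ((d : ℤ) ∣ Fp S n ∧ (d' : ℤ) ∣ Fp S' n) then Wt N n else 0) =
      ∑' n : ℤ, g y N X S S' n := by
    convert hex using 4
  refine (le_of_eq hex').trans ?_
  have hne : ∀ L ∈ S, ∀ L' ∈ S', L ≠ L' := fun L hL L' hL' h =>
    disjoint_left.1 hSS hL (h ▸ hL')
  -- the primes
  set D : (ℤ × ℕ) → (ℤ × ℕ) → ℕ := fun L L' => (L.1 * L'.2 - L'.1 * L.2 : ℤ).natAbs with hDdef
  have hD0 : ∀ L ∈ S, ∀ L' ∈ S', D L L' ≠ 0 := by
    intro L hL L' hL'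
    exact Int.natAbs_ne_zero.2 (det_ne_zero (hS.fo L hL) (hS'.fo L' hL') (hne L hL L' hL'))
  set Ls : (ℤ × ℕ) → (ℤ × ℕ) → Finset ℕ :=
    fun L L' => (D L L').primeFactors.filter (fun l : ℕ => y < l) with hLs
  have hLcard : ∀ L ∈ S, ∀ L' ∈ S', ((Ls L L').card : ℝ) ≤ ((2 * M + 1 : ℕ) : ℝ) / ε := by
    intro L hL L' hL'
    refine card_primes hN hε (D L L') (hD0 L hL L' hL') (det_le hN (hS.fo L hL) (hS'.fo L' hL'))
      (Ls L L') fun l hl => ?_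
    rw [hLs, mem_filter] at hl
    exact hl
  have hcls : ∀ (L : ℤ × ℕ) (l : ℕ), ∃ r : ℤ, L ∈ S → l.Prime →
      ∀ n : ℤ, (l : ℤ) ∣ lf L n → (l : ℤ) ∣ n - r := by
    intro L l
    by_cases hl : L ∈ S ∧ l.Prime
    · obtain ⟨r, hr⟩ := class_ex (hS.fo L hl.1) l hl.2
      exact ⟨r, fun _ _ => hr⟩
    · exact ⟨0, fun h h' => absurd ⟨h, h'⟩ hl⟩
  choose r hr using hcls
  have hX' : ∀ m : ℤ, ((rd y X m).card : ℝ) ≤ X := by
    intro m
    have : (rd y X m).card ≤ X := (card_filter_le _ _).trans (card_roughs y X)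
    exact_mod_cast this
  -- the zeros
  set nz : (ℤ × ℕ) → ℤ := fun L => -L.1 / L.2 with hnz
  have hz : ∀ L : ℤ × ℕ, FoM M N L → ∀ n : ℤ, lf L n = 0 → n = nz L := by
    intro L hL n hn
    have hb : (L.2 : ℤ) ≠ 0 := by have := hL.b1; omega
    unfold lf at hn
    simp only [hnz]
    have : -L.1 = n * (L.2 : ℤ) := by linarith
    rw [this, Int.mul_ediv_cancel _ hb]
  have hnot : ∀ L ∈ S, ∀ L' ∈ S', ∀ n : ℤ, ¬ (lf L n = 0 ∧ lf L' n = 0) := by
    rintro L hL L' hL' n ⟨h1, h2⟩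
    apply det_ne_zero (hS.fo L hL) (hS'.fo L' hL') (hne L hL L' hL')
    unfold lf at h1 h2
    have e1 : L.1 = -(L.2 * n) := by linarith
    have e2 : L'.1 = -(L'.2 * n) := by linarith
    rw [e1, e2]
    ring
  have hnotF : ∀ n : ℤ, ¬ (Fp S n = 0 ∧ Fp S' n = 0) := by
    rintro n ⟨h1, h2⟩
    obtain ⟨L, hL, h3⟩ := prod_eq_zero_iff.1 h1
    obtain ⟨L', hL', h4⟩ := prod_eq_zero_iff.1 h2
    exact hnot L hL L' hL' n ⟨h3, h4⟩
  -- pointwise bound
  have hpt : ∀ n : ℤ, g y N X S S' n ≤ (∑ L ∈ S, if n = nz L then 2 * C0 * X else 0) +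
      (∑ L ∈ S', if n = nz L then 2 * C0 * X else 0) +
      ∑ L ∈ S, ∑ L' ∈ S', ∑ l ∈ Ls L L',
        2 * C0 ^ 2 * (if (l : ℤ) ∣ n - r L l then Wt (2 * N) n else 0) := by
    intro n
    have hterm0 : ∀ (L : ℤ × ℕ) (l : ℕ),
        0 ≤ 2 * C0 ^ 2 * (if (l : ℤ) ∣ n - r L l then Wt (2 * N) n else 0) := by
      intro L l
      refine mul_nonneg (by positivity) ?_
      split_ifs
      · exact (Wt_pos _ n).le
      · exact le_refl _
    have hsum0 : 0 ≤ ∑ L ∈ S, ∑ L' ∈ S', ∑ l ∈ Ls L L',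
        2 * C0 ^ 2 * (if (l : ℤ) ∣ n - r L l then Wt (2 * N) n else 0) :=
      sum_nonneg fun L _ => sum_nonneg fun L' _ => sum_nonneg fun l _ => hterm0 L l
    have hz0 : ∀ T : Finset (ℤ × ℕ), 0 ≤ ∑ L ∈ T, if n = nz L then 2 * C0 * (X:ℝ) else 0 :=
      fun T => sum_nonneg fun L _ => by split_ifs <;> positivity
    have hz1 : ∀ T : Finset (ℤ × ℕ), ∀ L ∈ T, n = nz L →
        2 * C0 * (X:ℝ) ≤ ∑ L ∈ T, if n = nz L then 2 * C0 * (X:ℝ) else 0 := by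
      intro T L hL hn
      have := single_le_sum (f := fun L => if n = nz L then 2 * C0 * (X:ℝ) else 0)
        (fun L _ => by
          change 0 ≤ if n = nz L then 2 * C0 * (X:ℝ) else 0
          split_ifs <;> positivity) hL
      refine le_trans (le_of_eq ?_) this
      exact (if_pos hn).symm
    have hW1 := Wt_le_one (2 * N) n
    have hW0 := (Wt_pos N n).le
    have h4 := (hGS N hN1).1 n
    set t := 1 + |(n:ℝ)| / N with ht
    have ht1 : 1 ≤ t := by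
      have : 0 ≤ |(n:ℝ)| / N := by positivity
      linarith
    have ht4 : t ^ (1 / 4 : ℝ) ≤ t := by
      calc t ^ (1 / 4 : ℝ) ≤ t ^ (1 : ℝ) :=
            Real.rpow_le_rpow_of_exponent_le ht1 (by norm_num)
        _ = t := Real.rpow_one _
    have hWt4 : Wt N n * t ^ (1 / 4 : ℝ) ≤ 2 := by
      calc Wt N n * t ^ (1 / 4 : ℝ) ≤ Wt N n * t := mul_le_mul_of_nonneg_left ht4 hW0
        _ ≤ 2 * Wt (2 * N) n := h4
        _ ≤ 2 := by linarith
    have h0 := g_le y N X S S' n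
    by_cases hna : Fp S n = 0
    · have hna' : Fp S' n ≠ 0 := fun h => hnotF n ⟨hna, h⟩
      obtain ⟨L, hL, hLn⟩ := prod_eq_zero_iff.1 hna
      have h1 := (hpb N X hsmall hXN S' hS').1 n hna'
      have h4 := hX' (Fp S n)
      have h5 := hz1 S L hL (hz L (hS.fo L hL) n hLn)
      have h6 : Wt N n * (((rd y X (Fp S n)).card : ℝ) * ((rd y X (Fp S' n)).card : ℝ)) ≤
          2 * C0 * X := by
        exact aux1 _ _ _ _ _ _ hW0 (Nat.cast_nonneg _) (Nat.cast_nonneg _) (Nat.cast_nonneg _) hC0.le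
          h4 h1 hWt4
      have h7 := hz0 S'
      linarith
    by_cases hna' : Fp S' n = 0
    · obtain ⟨L, hL, hLn⟩ := prod_eq_zero_iff.1 hna'
      have h1 := (hpb N X hsmall hXN S hS).1 n hna
      have h4 := hX' (Fp S' n)
      have h5 := hz1 S' L hL (hz L (hS'.fo L hL) n hLn)
      have h6 : Wt N n * (((rd y X (Fp S n)).card : ℝ) * ((rd y X (Fp S' n)).card : ℝ)) ≤
          2 * C0 * X := by
        rw [mul_comm ((rd y X (Fp S n)).card : ℝ)]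
        exact aux1 _ _ _ _ _ _ hW0 (Nat.cast_nonneg _) (Nat.cast_nonneg _) (Nat.cast_nonneg _) hC0.le
          h4 h1 hWt4
      have h7 := hz0 S
      linarith
    have hp0 := hz0 S
    have hp1 := hz0 S'
    suffices hSu : g y N X S S' n ≤ ∑ L ∈ S, ∑ L' ∈ S', ∑ l ∈ Ls L L',
        2 * C0 ^ 2 * (if (l : ℤ) ∣ n - r L l then Wt (2 * N) n else 0) by linarith
    by_cases hf0 : g y N X S S' n = 0
    · rw [hf0]; exact hsum0
    -- a common prime factor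
    obtain ⟨d, hd, hd2⟩ : ∃ d ∈ roughs y X,
        ∑ d' ∈ (roughs y X).filter (fun d' => ¬ Nat.Coprime d d'),
        (if ((d : ℤ) ∣ Fp S n ∧ (d' : ℤ) ∣ Fp S' n) then Wt N n else 0) ≠ 0 := by
      by_contra hc
      push Not at hc
      exact hf0 (sum_eq_zero hc)
    obtain ⟨d', hd', hd2'⟩ := exists_ne_zero_of_sum_ne_zero hd2
    have hdv : (d : ℤ) ∣ Fp S n ∧ (d' : ℤ) ∣ Fp S' n := by
      by_contra hc
      exact hd2' (if_neg hc)
    rw [mem_filter] at hd'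
    obtain ⟨l, hl, hldd⟩ := Nat.exists_prime_and_dvd (n := Nat.gcd d d') (fun h => hd'.2 h)
    have hld : l ∣ d := hldd.trans (Nat.gcd_dvd_left _ _)
    have hld' : l ∣ d' := hldd.trans (Nat.gcd_dvd_right _ _)
    have hRd : Rough y d := by
      have := hd
      unfold roughs at this
      exact (mem_filter.1 this).2
    have hlr := rough_prime y d l hRd hl hld
    have hlp : Prime (l : ℤ) := Nat.prime_iff_prime_int.1 hl
    have hla0 : (l : ℤ) ∣ Fp S n := (Int.natCast_dvd_natCast.2 hld).trans hdv.1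
    have hla0' : (l : ℤ) ∣ Fp S' n := (Int.natCast_dvd_natCast.2 hld').trans hdv.2
    obtain ⟨L, hL, hla⟩ := (Prime.dvd_finsetProd_iff hlp _).1 hla0
    obtain ⟨L', hL', hla'⟩ := (Prime.dvd_finsetProd_iff hlp _).1 hla0'
    have hlaa : (l : ℤ) ∣ L.1 * L'.2 - L'.1 * L.2 := by
      have := dvd_sub (hla.mul_left (L'.2 : ℤ)) (hla'.mul_left (L.2 : ℤ))
      unfold lf at this
      have e : (L'.2 : ℤ) * (L.1 + (L.2 : ℤ) * n) - (L.2 : ℤ) * (L'.1 + (L'.2 : ℤ) * n) =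
          L.1 * L'.2 - L'.1 * L.2 := by ring
      rwa [e] at this
    have hlL : l ∈ Ls L L' := by
      simp only [hLs, mem_filter]
      refine ⟨Nat.mem_primeFactors.2 ⟨hl, ?_, hD0 L hL L' hL'⟩, hlr.1⟩
      simp only [hDdef]
      exact Int.natCast_dvd.1 hlaa
    have h1 := (hpb N X hsmall hXN S hS).1 n hna
    have h2 := (hpb N X hsmall hXN S' hS').1 n hna'
    have h3 : t ^ (1 / 4 : ℝ) * t ^ (1 / 4 : ℝ) ≤ t := by
      rw [← Real.rpow_add (by linarith)]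
      calc t ^ (1 / 4 + 1 / 4 : ℝ) ≤ t ^ (1 : ℝ) :=
            Real.rpow_le_rpow_of_exponent_le ht1 (by norm_num)
        _ = t := Real.rpow_one _
    calc g y N X S S' n ≤ Wt N n * (((rd y X (Fp S n)).card : ℝ) * ((rd y X (Fp S' n)).card : ℝ)) := h0
      _ ≤ 2 * C0 ^ 2 * Wt (2 * N) n :=
          aux2 _ _ _ _ _ _ _ hW0 (Nat.cast_nonneg _) (Nat.cast_nonneg _) hC0.le
            (Real.rpow_nonneg (by linarith) _) h1 h2 h3 h4
      _ = 2 * C0 ^ 2 * (if (l : ℤ) ∣ n - r L l then Wt (2 * N) n else 0) := by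
          rw [if_pos (hr L l hL hl n hla)]
      _ ≤ ∑ l ∈ Ls L L', 2 * C0 ^ 2 * (if (l : ℤ) ∣ n - r L l then Wt (2 * N) n else 0) :=
          single_le_sum (f := fun l : ℕ =>
          2 * C0 ^ 2 * (if (l : ℤ) ∣ n - r L l then Wt (2 * N) n else 0)) (fun l _ => hterm0 L l) hlL
      _ ≤ ∑ L' ∈ S', ∑ l ∈ Ls L L',
          2 * C0 ^ 2 * (if (l : ℤ) ∣ n - r L l then Wt (2 * N) n else 0) :=
          single_le_sum (f := fun L' => ∑ l ∈ Ls L L',
          2 * C0 ^ 2 * (if (l : ℤ) ∣ n - r L l then Wt (2 * N) n else 0))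
          (fun L' _ => sum_nonneg fun l _ => hterm0 L l) hL'
      _ ≤ _ := single_le_sum (f := fun L => ∑ L' ∈ S', ∑ l ∈ Ls L L',
          2 * C0 ^ 2 * (if (l : ℤ) ∣ n - r L l then Wt (2 * N) n else 0))
          (fun L _ => sum_nonneg fun L' _ => sum_nonneg fun l _ => hterm0 L l) hL
  -- summability
  have hs1 : ∀ (b : ℤ) (v : ℝ), Summable (fun n : ℤ => if n = b then v else 0) := by
    intro b v
    refine summable_of_ne_finset_zero (s := {b}) fun n hn => ?_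
    rw [mem_singleton] at hn
    exact if_neg hn
  have hs1' : ∀ T : Finset (ℤ × ℕ),
      Summable (fun n : ℤ => ∑ L ∈ T, if n = nz L then 2 * C0 * (X:ℝ) else 0) :=
    fun T => summable_sum fun L _ => hs1 _ _
  have hs2 : Summable (fun n : ℤ => ∑ L ∈ S, ∑ L' ∈ S', ∑ l ∈ Ls L L',
      2 * C0 ^ 2 * (if (l : ℤ) ∣ n - r L l then Wt (2 * N) n else 0)) :=
    summable_sum fun L _ => summable_sum fun L' _ =>
      summable_sum fun l _ => (summable_ite (2 * N) (by omega) _).mul_left _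
  have hsf : Summable (fun n : ℤ => g y N X S S' n) := by
    unfold g
    exact summable_sum fun d _ => summable_sum fun d' _ => summable_ite N hN1 _
  have htot := Summable.tsum_le_tsum hpt hsf (((hs1' S).add (hs1' S')).add hs2)
  refine htot.trans ?_
  rw [Summable.tsum_add ((hs1' S).add (hs1' S')) hs2, Summable.tsum_add (hs1' S) (hs1' S')]
  have hz2 : ∀ T : Finset (ℤ × ℕ), T.card = k →
      ∑' n : ℤ, (∑ L ∈ T, if n = nz L then 2 * C0 * (X:ℝ) else 0) = k * (2 * C0 * X) := by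
    intro T hT
    rw [Summable.tsum_finsetSum fun L _ => hs1 _ _]
    simp only [tsum_ite_eq]
    rw [sum_const, nsmul_eq_mul, hT]
  rw [hz2 S hS.card, hz2 S' hS'.card]
  have hl : ∀ L ∈ S, ∀ L' ∈ S', ∀ l ∈ Ls L L',
      ∑' n : ℤ, 2 * C0 ^ 2 * (if (l : ℤ) ∣ n - r L l then Wt (2 * N) n else 0) ≤
      2 * C0 ^ 2 * (4 * (2 * (N:ℝ) ^ (1 - ε) + 1)) := by
    intro L hL L' hL' l hlL
    rw [tsum_mul_left]
    refine mul_le_mul_of_nonneg_left ?_ (by positivity)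
    simp only [hLs, mem_filter] at hlL
    have hlp : l.Prime := Nat.prime_of_mem_primeFactors hlL.1
    have hly : y < l := hlL.2
    have h3 := (hGS (2 * N) (by omega)).2 l (r L l) hlp.one_le
    refine h3.trans ?_
    have h4 : ((2 * N : ℕ) : ℝ) / l ≤ 2 * (N:ℝ) ^ (1 - ε) := by
      push_cast
      rw [mul_div_assoc]
      refine mul_le_mul_of_nonneg_left ?_ (by norm_num)
      rw [Real.rpow_sub hNpos, Real.rpow_one]
      exact div_le_div_of_nonneg_left hNpos.le hy0 hly.le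
    linarith
  have hsumL : ∑' n : ℤ, (∑ L ∈ S, ∑ L' ∈ S', ∑ l ∈ Ls L L',
      2 * C0 ^ 2 * (if (l : ℤ) ∣ n - r L l then Wt (2 * N) n else 0)) ≤
      ((k : ℝ) ^ 2 * (((2 * M + 1 : ℕ) : ℝ) / ε)) * (2 * C0 ^ 2 * (4 * (2 * (N:ℝ) ^ (1 - ε) + 1))) := by
    rw [Summable.tsum_finsetSum fun L _ => summable_sum fun L' _ =>
      summable_sum fun l _ => (summable_ite (2 * N) (by omega) _).mul_left _]
    calc _ ≤ ∑ L ∈ S, (k : ℝ) * ((((2 * M + 1 : ℕ) : ℝ) / ε) *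
          (2 * C0 ^ 2 * (4 * (2 * (N:ℝ) ^ (1 - ε) + 1)))) := by
          refine sum_le_sum fun L hL => ?_
          rw [Summable.tsum_finsetSum fun L' _ =>
            summable_sum fun l _ => (summable_ite (2 * N) (by omega) _).mul_left _]
          calc _ ≤ ∑ L' ∈ S', ((((2 * M + 1 : ℕ) : ℝ) / ε) *
                (2 * C0 ^ 2 * (4 * (2 * (N:ℝ) ^ (1 - ε) + 1)))) := by
                refine sum_le_sum fun L' hL' => ?_
                rw [Summable.tsum_finsetSum fun l _ => (summable_ite (2 * N) (by omega) _).mul_left _]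
                calc _ ≤ ∑ l ∈ Ls L L', 2 * C0 ^ 2 * (4 * (2 * (N:ℝ) ^ (1 - ε) + 1)) :=
                      sum_le_sum (hl L hL L' hL')
                  _ = ((Ls L L').card : ℝ) * (2 * C0 ^ 2 * (4 * (2 * (N:ℝ) ^ (1 - ε) + 1))) := by
                      rw [sum_const, nsmul_eq_mul]
                  _ ≤ _ := mul_le_mul_of_nonneg_right (hLcard L hL L' hL') (by positivity)
            _ = _ := by rw [sum_const, nsmul_eq_mul, hS'.card]
      _ = _ := by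
          rw [sum_const, nsmul_eq_mul, hS.card]
          ring
  have hfin : k * (2 * C0 * X) + k * (2 * C0 * X) +
      ((k : ℝ) ^ 2 * (((2 * M + 1 : ℕ) : ℝ) / ε)) * (2 * C0 ^ 2 * (4 * (2 * (N:ℝ) ^ (1 - ε) + 1))) ≤
      (4 * k * C0 + 24 * ((k : ℝ) ^ 2 * (((2 * M + 1 : ℕ) : ℝ) / ε)) * C0 ^ 2 +
        4 * N₀ * (N₀ + 1) + 1) * ((N : ℝ) ^ (1 - ε) + X) := by
    have hK' : 0 ≤ (k : ℝ) ^ 2 * (((2 * M + 1 : ℕ) : ℝ) / ε) := by positivity
    generalize (k : ℝ) ^ 2 * (((2 * M + 1 : ℕ) : ℝ) / ε) = K at hK' ⊢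
    generalize (N : ℝ) ^ (1 - ε) = P at hpow0 ⊢
    have hk0 : (0:ℝ) ≤ k := Nat.cast_nonneg _
    have e1 : 0 ≤ K * C0 ^ 2 := by positivity
    have e2 : K * C0 ^ 2 * 1 ≤ K * C0 ^ 2 * X := mul_le_mul_of_nonneg_left hX1 e1
    have e3 : 0 ≤ K * C0 ^ 2 * P := mul_nonneg e1 hpow0
    have e4 : 0 ≤ (4 * (N₀:ℝ) * (N₀ + 1) + 1) * (P + X) := by positivity
    have e5 : 0 ≤ k * C0 * P := mul_nonneg (mul_nonneg hk0 hC0.le) hpow0
    have e6 : k * (2 * C0 * X) + k * (2 * C0 * X) + K * (2 * C0 ^ 2 * (4 * (2 * P + 1))) =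
        4 * (k * C0 * X) + 16 * (K * C0 ^ 2 * P) + 8 * (K * C0 ^ 2 * 1) := by ring
    have e7 : (4 * k * C0 + 24 * K * C0 ^ 2 + 4 * N₀ * (N₀ + 1) + 1) * (P + X) =
        4 * (k * C0 * P) + 4 * (k * C0 * X) + 24 * (K * C0 ^ 2 * P) + 24 * (K * C0 ^ 2 * X) +
          (4 * (N₀:ℝ) * (N₀ + 1) + 1) * (P + X) := by ring
    have e8 : 0 ≤ K * C0 ^ 2 * X := by positivity
    rw [e6, e7]
    linarith
  linarith

end Pool.Agent.W358.KT
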